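import Pool.Agent.H240.GU.Def5

/-!
# `GV-8` (for helper240): Taylor estimates in the thin collar
-/

set_option autoImplicit false

open Set Filter Topology MeasureTheory
open scoped ContDiff ComplexConjugate Real

noncomputable section

namespace Pool.Agent.H795.GV

open Pool.Agent.Y262.EG Pool.Agent.H240.AL Pool.Agent.H240.GU Pool.Agent.H240.GV

theorem mvt_lip {F F1 : ℝ → ℝ} {M : ℝ} (h : ∀ t ∈ Icc (0:ℝ) 1, HasDerivAt F (F1 t) t)
    (hM : ∀ t ∈ Icc (0:ℝ) 1, |F1 t| ≤ M) {t : ℝ} (ht : t ∈ Icc (0:ℝ) 1) : |F t - F 0| ≤ M := by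
  have hM0 : 0 ≤ M := (abs_nonneg _).trans (hM 0 ⟨le_rfl, zero_le_one⟩)
  rcases eq_or_lt_of_le ht.1 with h0 | h0
  · rw [← h0, sub_self, abs_zero]
    exact hM0
  · have hsub : ∀ s ∈ Icc 0 t, s ∈ Icc (0:ℝ) 1 := fun s hs => ⟨hs.1, hs.2.trans ht.2⟩
    obtain ⟨c, hc, hce⟩ := exists_hasDerivAt_eq_slope F F1 h0
      (fun s hs => (h s (hsub s hs)).continuousAt.continuousWithinAt)
      (fun s hs => h s (hsub s ⟨hs.1.le, hs.2.le⟩))
    have h1 : F t - F 0 = F1 c * t := by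
      rw [hce, sub_zero]
      field_simp
    rw [h1, abs_mul, abs_of_pos h0]
    calc |F1 c| * t ≤ M * 1 :=
          mul_le_mul (hM c (hsub c ⟨hc.1.le, hc.2.le⟩)) ht.2 h0.le hM0
      _ = M := mul_one M

theorem taylor_low {G G1 G2 : ℝ → ℝ} {m : ℝ} (h1 : ∀ t ∈ Icc (0:ℝ) 1, HasDerivAt G (G1 t) t)
    (h2 : ∀ t ∈ Icc (0:ℝ) 1, HasDerivAt G1 (G2 t) t) (hm : ∀ t ∈ Icc (0:ℝ) 1, m ≤ G2 t) :
    G 0 + G1 0 + m / 2 ≤ G 1 := by
  have hG1 : ∀ t ∈ Ioo (0:ℝ) 1, G1 0 + m * t ≤ G1 t := by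
    intro t ht
    have hsub : ∀ s ∈ Icc 0 t, s ∈ Icc (0:ℝ) 1 := fun s hs => ⟨hs.1, hs.2.trans ht.2.le⟩
    obtain ⟨c, hc, hce⟩ := exists_hasDerivAt_eq_slope G1 G2 ht.1
      (fun s hs => (h2 s (hsub s hs)).continuousAt.continuousWithinAt)
      (fun s hs => h2 s (hsub s ⟨hs.1.le, hs.2.le⟩))
    have h3 : G1 t - G1 0 = G2 c * t := by
      rw [hce, sub_zero]
      have := ht.1.ne'
      field_simp
    have h4 : m * t ≤ G2 c * t :=
      mul_le_mul_of_nonneg_right (hm c (hsub c ⟨hc.1.le, hc.2.le⟩)) ht.1.le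
    linarith
  obtain ⟨c, hc, hce⟩ := exists_hasDerivAt_eq_slope (fun t => G t - G1 0 * t - m * t ^ 2 / 2)
    (fun t => G1 t - G1 0 - m * t) zero_lt_one
    (fun s hs => (((h1 s hs).continuousAt.sub (by fun_prop)).sub
      (by fun_prop)).continuousWithinAt)
    (fun s hs => by
      have e1 := (h1 s ⟨hs.1.le, hs.2.le⟩).sub ((hasDerivAt_id s).const_mul (G1 0))
      have e2 := (((hasDerivAt_id s).pow 2).const_mul m).div_const 2
      have e3 := e1.sub e2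
      refine e3.congr_deriv ?_
      simp
      ring)
  have h5 := hG1 c hc
  have h6 : G 1 - G1 0 - m / 2 - G 0 = G1 c - G1 0 - m * c := by
    rw [hce]
    ring
  linarith

/-- the segment from the line `Re z = 0` to the point `x + i y` -/
def seg (x y t : ℝ) : ℂ := ((t * x : ℝ) : ℂ) + y * Complex.I

theorem seg_mem {x y δ t : ℝ} (hx : |x| < δ) (ht : t ∈ Icc (0:ℝ) 1) : seg x y t ∈ Sx 0 δ := by
  have e : (seg x y t).re = t * x := by simp [seg]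
  change |(seg x y t).re - 0| < δ
  rw [e, sub_zero, abs_mul, abs_of_nonneg ht.1]
  calc t * |x| ≤ 1 * |x| := mul_le_mul_of_nonneg_right ht.2 (abs_nonneg x)
    _ = |x| := one_mul _
    _ < δ := hx

theorem isOpen_Sx' (δ : ℝ) : IsOpen (Sx 0 δ) := by
  have : Sx 0 δ = (fun z : ℂ => |z.re - 0|) ⁻¹' Iio δ := rfl
  rw [this]
  exact isOpen_Iio.preimage (by fun_prop)

theorem seg_deriv {ψ : ℂ → ℝ} {x y δ t : ℝ} (hψ : ContDiffOn ℝ ∞ ψ (Sx 0 δ)) (hx : |x| < δ)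
    (ht : t ∈ Icc (0:ℝ) 1) :
    HasDerivAt (fun t => ψ (seg x y t)) (x * px ψ (seg x y t)) t := by
  have h1 : DifferentiableAt ℝ ψ (seg x y t) :=
    (hψ.contDiffAt ((isOpen_Sx' δ).mem_nhds (seg_mem hx ht))).differentiableAt (by simp)
  have h2 : HasDerivAt (fun t => seg x y t) (x : ℂ) t := by
    have h3 : HasDerivAt (fun t : ℝ => t * x) x t := by
      simpa using (hasDerivAt_id t).mul_const x
    exact h3.ofReal_comp.add_const _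
  have h4 := h1.hasFDerivAt.comp_hasDerivAt t h2
  refine h4.congr_deriv ?_
  have h5 : (x : ℂ) = x • (1 : ℂ) := by simp
  rw [h5, map_smul, smul_eq_mul]
  rfl

theorem px_smooth {ψ : ℂ → ℝ} {δ : ℝ} (hψ : ContDiffOn ℝ ∞ ψ (Sx 0 δ)) :
    ContDiffOn ℝ ∞ (px ψ) (Sx 0 δ) :=
  (hψ.fderiv_of_isOpen (isOpen_Sx' δ) (by simp)).clm_apply contDiffOn_const

theorem py_smooth {ψ : ℂ → ℝ} {δ : ℝ} (hψ : ContDiffOn ℝ ∞ ψ (Sx 0 δ)) :
    ContDiffOn ℝ ∞ (py ψ) (Sx 0 δ) :=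
  (hψ.fderiv_of_isOpen (isOpen_Sx' δ) (by simp)).clm_apply contDiffOn_const

/-- the values on the strip are close to those on the line -/
theorem seg_lip {ψ : ℂ → ℝ} {x y δ M : ℝ} (hψ : ContDiffOn ℝ ∞ ψ (Sx 0 δ)) (hx : |x| < δ)
    (hM : ∀ z ∈ Sx 0 δ, |px ψ z| ≤ M) {t : ℝ} (ht : t ∈ Icc (0:ℝ) 1) :
    |ψ (seg x y t) - ψ (seg x y 0)| ≤ M * |x| := by
  refine mvt_lip (F := fun t => ψ (seg x y t)) (fun t ht => seg_deriv hψ hx ht) (fun s hs => ?_) ht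
  rw [abs_mul, mul_comm]
  exact mul_le_mul_of_nonneg_right (hM _ (seg_mem hx hs)) (abs_nonneg x)

theorem main_est {Φ : ℂ → ℝ} {k K E δ x y : ℝ} (hδ : δ ≤ 1)
    (hE : E ≤ k) (hK : K * δ ≤ k) (hE0 : 0 ≤ E) (hK0 : 0 < K) (hΦ : ContDiffOn ℝ ∞ Φ (Sx 0 δ))
    (hb : ∀ z ∈ Sx 0 δ, 4 * k ≤ Lp2 Φ z ∧ Lp2 Φ z ≤ K ∧
        |px (px Φ) z| ≤ K ∧ |px (py Φ) z| ≤ K ∧ |px (px (px Φ)) z| ≤ K)
    (hl : ∀ z : ℂ, z.re = 0 → |Φ z| ≤ E ∧ |px Φ z| ≤ E ∧ |py Φ z| ≤ E ∧ |py (py Φ) z| ≤ E)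
    (hx : |x| < δ) :
    k * x ^ 2 - 2 * E ≤ Φ (seg x y 1) ∧ Φ (seg x y 1) ≤ K * x ^ 2 + 2 * E ∧
      |px Φ (seg x y 1)| ≤ K * |x| + 2 * E ∧ |py Φ (seg x y 1)| ≤ K * |x| + 2 * E := by
  have hre : (seg x y 0).re = 0 := by simp [seg]
  obtain ⟨l1, l2, l3, l4⟩ := hl _ hre
  have h1 : (1:ℝ) ∈ Icc (0:ℝ) 1 := ⟨zero_le_one, le_rfl⟩
  have h0 : (0:ℝ) ∈ Icc (0:ℝ) 1 := ⟨le_rfl, zero_le_one⟩
  have hx0 : 0 ≤ |x| := abs_nonneg x
  have hx1 : |x| ≤ 1 := hx.le.trans hδ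
  have hpx := px_smooth hΦ
  have hpy := py_smooth hΦ
  have hpxx := px_smooth hpx
  have hxE : |x * px Φ (seg x y 0)| ≤ E := by
    rw [abs_mul]
    calc |x| * |px Φ (seg x y 0)| ≤ 1 * E := mul_le_mul hx1 l2 (abs_nonneg _) zero_le_one
      _ = E := one_mul E
  have g0 : ∀ t ∈ Icc (0:ℝ) 1, HasDerivAt (fun t => Φ (seg x y t)) (x * px Φ (seg x y t)) t :=
    fun t ht => seg_deriv hΦ hx ht
  have g1 : ∀ t ∈ Icc (0:ℝ) 1, HasDerivAt (fun t => x * px Φ (seg x y t))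
      (x * (x * px (px Φ) (seg x y t))) t := fun t ht => (seg_deriv hpx hx ht).const_mul x
  have hlow : ∀ t ∈ Icc (0:ℝ) 1, 2 * k ≤ px (px Φ) (seg x y t) := by
    intro t ht
    have e1 := seg_lip (y := y) hpxx hx (fun z hz => (hb z hz).2.2.2.2) ht
    have e2 : 4 * k ≤ Lp2 Φ (seg x y 0) := (hb _ (seg_mem hx h0)).1
    unfold Lp2 at e2
    have e3 : K * |x| ≤ K * δ := mul_le_mul_of_nonneg_left hx.le hK0.le
    have e4 := (abs_le.1 e1).1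
    have e5 := (abs_le.1 l4).2
    linarith
  have hsq : 0 ≤ x ^ 2 := sq_nonneg x
  have T1 := taylor_low g0 g1 (m := 2 * k * x ^ 2) (fun t ht => by
    have := mul_le_mul_of_nonneg_right (hlow t ht) hsq
    calc 2 * k * x ^ 2 ≤ px (px Φ) (seg x y t) * x ^ 2 := this
      _ = x * (x * px (px Φ) (seg x y t)) := by ring)
  have T2 := taylor_low (fun t ht => (g0 t ht).neg) (fun t ht => (g1 t ht).neg)
    (m := -(K * x ^ 2)) (fun t ht => by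
    have e1 := (abs_le.1 (hb _ (seg_mem (y := y) hx ht)).2.2.1).2
    have := mul_le_mul_of_nonneg_right e1 hsq
    calc -(K * x ^ 2) ≤ -(px (px Φ) (seg x y t) * x ^ 2) := neg_le_neg this
      _ = -(x * (x * px (px Φ) (seg x y t))) := by ring)
  simp only [Pi.neg_apply] at T2
  have L2 := seg_lip (y := y) hpx hx (fun z hz => (hb z hz).2.2.1) h1
  have L3 := seg_lip (y := y) hpy hx (fun z hz => (hb z hz).2.2.2.1) h1
  obtain ⟨a1, a2⟩ := abs_le.1 l1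
  obtain ⟨b1, b2⟩ := abs_le.1 hxE
  obtain ⟨c1, c2⟩ := abs_le.1 l2
  obtain ⟨d1, d2⟩ := abs_le.1 l3
  obtain ⟨p1, p2⟩ := abs_le.1 L2
  obtain ⟨r1, r2⟩ := abs_le.1 L3
  have hKx : 0 ≤ K * x ^ 2 := mul_nonneg hK0.le hsq
  refine ⟨by linarith, by linarith, ?_, ?_⟩
  · rw [abs_le]
    constructor <;> linarith
  · rw [abs_le]
    constructor <;> linarith

theorem stTay : StTay := by
  intro k K C hk hK hC
  obtain ⟨N, hN⟩ := exists_nat_ge ((C + K) / k)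
  refine ⟨N, K, 2 * C, hK, by positivity, fun n Φ hn hsm hper hb hl => ?_⟩
  obtain ⟨a, ha⟩ : ∃ a : ℝ, a = (n : ℝ) + 1 := ⟨_, rfl⟩
  have hn' : (N : ℝ) ≤ n := by exact_mod_cast hn
  have ha1 : 1 ≤ a := by
    rw [ha]
    have : (0 : ℝ) ≤ n := Nat.cast_nonneg n
    linarith
  have ha0 : 0 < a := by linarith
  have hak : C + K ≤ k * a := by
    have h1 : (C + K) / k ≤ a := by rw [ha]; linarith
    rwa [div_le_iff₀ hk, mul_comm] at h1
  rw [← ha] at hsm hper hb hl ⊢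
  have hδ : 1 / a ≤ 1 := by
    rw [div_le_one ha0]
    exact ha1
  have hKa : K * (1 / a) ≤ k := by
    rw [mul_one_div, div_le_iff₀ ha0]
    linarith
  have hE : C / a ^ 4 ≤ k := by
    rw [div_le_iff₀ (by positivity)]
    have h1 : a ≤ a ^ 4 := by
      calc a = a ^ 1 := (pow_one a).symm
        _ ≤ a ^ 4 := pow_le_pow_right₀ ha1 (by norm_num)
    have h2 : k * a ≤ k * a ^ 4 := mul_le_mul_of_nonneg_left h1 hk.le
    linarith
  have hE0 : 0 ≤ C / a ^ 4 := by positivity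
  have e2 : 2 * C / a ^ 4 = 2 * (C / a ^ 4) := by ring
  have key : ∀ z ∈ Sx 0 (1 / a),
      k * z.re ^ 2 - 2 * (C / a ^ 4) ≤ Φ z ∧ Φ z ≤ K * z.re ^ 2 + 2 * (C / a ^ 4) ∧
      |px Φ z| ≤ K * |z.re| + 2 * (C / a ^ 4) ∧ |py Φ z| ≤ K * |z.re| + 2 * (C / a ^ 4) := by
    intro z hz
    have hx : |z.re| < 1 / a := by
      have : |z.re - 0| < 1 / a := hz
      rwa [sub_zero] at this
    have hs : seg z.re z.im 1 = z := by
      apply Complex.ext <;> simp [seg]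
    have h := main_est (y := z.im) hδ hE hKa hE0 hK hsm hb hl hx
    rwa [hs] at h
  refine ⟨hsm, hper, fun z hz => ⟨?_, (hb z hz).2.1⟩, fun z hz => ?_, fun z hz => ?_,
    fun z hz => ?_⟩
  · have := (hb z hz).1
    linarith
  · rw [e2, sub_zero]
    exact (key z hz).1
  · rw [e2, sub_zero]
    exact (key z hz).2.1
  · rw [e2, sub_zero]
    exact (key z hz).2.2

end Pool.Agent.H795.GV
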